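import Pool.Agent.W623.SecH.Stm3

/-!
# Project SH (helper623), part UNIQX: uniqueness of the branch point
-/

set_option autoImplicit false

namespace Pool.Agent.W335.SHU

open Pool.Agent.W623.SecH Finset

universe u v w

section val

variable {M : Type v} [Field M] {W : ValuationSubring M}

theorem nonunit_mul {a b : M} (ha : a ∈ W) (hb : b ∈ W.nonunits) : a * b ∈ W.nonunits := by
  rw [W.mem_nonunits_iff, map_mul]
  exact lt_of_le_of_lt (mul_le_of_le_one_left' ((W.valuation_le_one_iff _).2 ha))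
    ((W.mem_nonunits_iff).1 hb)

theorem mem_of_one {a : M} (h : a - 1 ∈ W.nonunits) : a ∈ W := by
  have h3 : a = (a - 1) + 1 := by ring
  rw [h3]
  exact add_mem (W.nonunits_subset h) (one_mem _)

theorem mul_one {a b : M} (ha : a - 1 ∈ W.nonunits) (hb : b - 1 ∈ W.nonunits) :
    a * b - 1 ∈ W.nonunits := by
  have h : a * b - 1 = a * (b - 1) + (a - 1) := by ring
  rw [h]
  exact add_mem (nonunit_mul (mem_of_one ha) hb) ha

theorem prod_one {I : Type*} (t : Finset I) (g : I → M) (h : ∀ i ∈ t, g i - 1 ∈ W.nonunits) :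
    (∏ i ∈ t, g i) - 1 ∈ W.nonunits := by
  classical
  induction t using Finset.induction_on with
  | empty => rw [Finset.prod_empty, sub_self]; exact zero_mem _
  | insert a t ha ih =>
    rw [Finset.prod_insert ha]
    exact mul_one (h a (Finset.mem_insert_self a t))
      (ih fun i hi => h i (Finset.mem_insert_of_mem hi))

theorem sign_choice {δ : M} (h : δ ^ 2 - 1 ∈ W.nonunits) :
    δ - 1 ∈ W.nonunits ∨ -δ - 1 ∈ W.nonunits := by
  rw [W.mem_nonunits_iff] at h
  have e : δ ^ 2 - 1 = (δ - 1) * -(-δ - 1) := by ring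
  rw [e, map_mul, Valuation.map_neg] at h
  by_contra hcon
  push Not at hcon
  rw [W.mem_nonunits_iff, W.mem_nonunits_iff, not_lt, not_lt] at hcon
  exact absurd h (not_lt.2 (one_le_mul_of_one_le_of_one_le hcon.1 hcon.2))

theorem unit_inv {a : M} (_ : a ∈ W) (h : a ∉ W.nonunits) : a⁻¹ ∈ W := by
  rw [W.mem_nonunits_iff_or, not_or, not_not] at h
  exact h.2

end val

section main

variable {A : Type u} {M : Type v} [Field A] [Field M] {ι : A →+* M} {X : Type w} {θ : X → A}
  {x y : M} {W : ValuationSubring M}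

theorem const_inv (hW : ∀ a, ι a ∈ W) (a : A) : (ι a)⁻¹ ∈ W := by
  rw [← map_inv₀]
  exact hW _

theorem const_not (hW : ∀ a, ι a ∈ W) {a : A} (ha : a ≠ 0) : ι a ∉ W.nonunits := by
  rw [W.mem_nonunits_iff_or, not_or, not_not]
  exact ⟨(_root_.map_ne_zero ι).2 ha, const_inv hW a⟩

theorem stable {g : M ≃+* M} (hg : ∀ z ∈ M2x ι θ x y, g z ∈ W ↔ z ∈ W) {z : M}
    (hz : z ∈ M2x ι θ x y) (h : z ∈ W.nonunits) : g z ∈ W.nonunits := by
  rw [W.mem_nonunits_iff_or] at h ⊢
  rcases h with h | h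
  · left
    rw [h, map_zero]
  · right
    rw [← map_inv₀, hg _ (inv_mem hz)]
    exact h

theorem no_neg [CharZero A] (hW : ∀ a, ι a ∈ W) {g : M ≃+* M}
    (hg : ∀ z ∈ M2x ι θ x y, g z ∈ W ↔ z ∈ W) {δ : M} (hδ : δ ∈ M2x ι θ x y)
    (h1 : δ ^ 2 - 1 ∈ W.nonunits) : g δ ≠ -δ := by
  intro hgδ
  have h2 : (-2 : M) ∉ W.nonunits := by
    have : (-2 : M) = ι (-2) := by rw [map_neg, map_ofNat]
    rw [this]
    exact const_not hW (by norm_num)
  have hone : (1 : M) ∈ M2x ι θ x y := one_mem _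
  rcases sign_choice h1 with h | h
  · have h3 := stable hg (sub_mem hδ hone) h
    rw [map_sub, map_one, hgδ] at h3
    apply h2
    have e : (-2 : M) = (δ - 1) + (-δ - 1) := by ring
    rw [e]
    exact add_mem h h3
  · have h3 := stable hg (sub_mem (neg_mem hδ) hone) h
    rw [map_sub, map_one, map_neg, hgδ, neg_neg] at h3
    apply h2
    have e : (-2 : M) = (-δ - 1) + (δ - 1) := by ring
    rw [e]
    exact add_mem h h3

/-- the other factors are units -/
theorem other (hW : ∀ a, ι a ∈ W) (hθ : Function.Injective θ) {r l : X} (hl : l ≠ r)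
    (hr : x - ι (θ r) ∈ W.nonunits) :
    x - ι (θ l) ∈ W ∧ x - ι (θ l) ∉ W.nonunits ∧ (x - ι (θ l))⁻¹ ∈ W := by
  have e : x - ι (θ l) = ι (θ r - θ l) + (x - ι (θ r)) := by
    rw [map_sub]; ring
  have h1 : x - ι (θ l) ∈ W := by
    rw [e]
    exact add_mem (hW _) (W.nonunits_subset hr)
  have h2 : x - ι (θ l) ∉ W.nonunits := by
    intro h
    have h3 := sub_mem h hr
    have e2 : x - ι (θ l) - (x - ι (θ r)) = ι (θ r - θ l) := by rw [map_sub]; ring
    rw [e2] at h3
    exact const_not hW (sub_ne_zero.2 (hθ.ne hl.symm)) h3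
  exact ⟨h1, h2, unit_inv h1 h2⟩

/-- normalised factors are one at the place -/
theorem ratio_one (hW : ∀ a, ι a ∈ W) (hθ : Function.Injective θ) {r l : X} (hl : l ≠ r)
    (hr : x - ι (θ r) ∈ W.nonunits) (h0 : x - ι (θ l) ≠ 0) :
    ι (θ r - θ l) / (x - ι (θ l)) - 1 ∈ W.nonunits := by
  have h := (other hW hθ hl hr).2.2
  have e : ι (θ r - θ l) / (x - ι (θ l)) - 1 = (-(x - ι (θ l))⁻¹) * (x - ι (θ r)) := by
    rw [map_sub]
    field_simp
    ring
  rw [e]
  exact nonunit_mul (neg_mem h) hr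

theorem ratio_one' (hW : ∀ a, ι a ∈ W) (hθ : Function.Injective θ) {r l : X} (hl : l ≠ r)
    (hr : x - ι (θ r) ∈ W.nonunits) :
    (x - ι (θ l)) / ι (θ r - θ l) - 1 ∈ W.nonunits := by
  have h0 : ι (θ r - θ l) ≠ 0 := (_root_.map_ne_zero ι).2 (sub_ne_zero.2 (hθ.ne hl.symm))
  have e : (x - ι (θ l)) / ι (θ r - θ l) - 1 = (ι (θ r - θ l))⁻¹ * (x - ι (θ r)) := by
    rw [div_sub_one h0, div_eq_inv_mul]
    congr 1
    rw [map_sub]
    ring
  rw [e]
  exact nonunit_mul (const_inv hW _) hr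

end main

theorem uniqx : UNIQX.{u, v, w} := by
  intro A M _ _ _ _ ι X _ _ hX4 _ θ hθ c hc x y hy0 hxy hsq g τ hgι hgx hgy hτθ hb hbc r r' W W'
    hW hWr hgW hW' hWr' hgW'
  by_contra hrr
  -- all factors are nonzero
  have hne : ∀ l, x - ι (θ l) ≠ 0 := by
    intro l hl
    have h1 : ∏ i, (x - ι (θ i)) = 0 := Finset.prod_eq_zero (Finset.mem_univ l) hl
    rw [h1] at hxy
    rcases mul_eq_zero.1 hxy with h2 | h2
    · exact hc ((map_eq_zero ι).1 h2)
    · exact hy0 (pow_eq_zero_iff two_ne_zero |>.1 h2)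
  -- a third index
  obtain ⟨i, hi⟩ : ∃ i : X, i ∉ ({r, r'} : Finset X) := by
    by_contra hcon
    push Not at hcon
    have h1 : (Finset.univ : Finset X) ⊆ {r, r'} := fun i _ => hcon i
    have h2 := Finset.card_le_card h1
    have h3 : ({r, r'} : Finset X).card ≤ 2 := Finset.card_le_two
    rw [Finset.card_univ] at h2
    omega
  have hir : i ≠ r := fun h => hi (by rw [h]; exact Finset.mem_insert_self _ _)
  have hir' : i ≠ r' := fun h => hi (by
    rw [h]; exact Finset.mem_insert_of_mem (Finset.mem_singleton_self _))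
  obtain ⟨z, hz⟩ := hsq r i
  have hzM : z ∈ M2x ι θ x y := by
    refine Subfield.subset_closure (Or.inr ⟨r, i, ?_⟩)
    rw [hz, div_mul_cancel₀ _ (hne i)]
  have hιM : ∀ a, ι a ∈ M2x ι θ x y := fun a =>
    Subfield.subset_closure (Or.inl (Or.inl ⟨a, rfl⟩))
  have hyM : y ∈ M2x ι θ x y := Subfield.subset_closure (Or.inl (Or.inr (by simp)))
  have hgl : ∀ l, g (x - ι (θ l)) = x - ι (θ l) := fun l => by
    rw [map_sub, hgx, hgι, hτθ]
  have hgz : g z = z ∨ g z = -z := by
    have h1 : (g z) ^ 2 = z ^ 2 := by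
      rw [← map_pow, hz, map_div₀, hgl, hgl]
    exact sq_eq_sq_iff_eq_or_eq_neg.1 h1
  have hb' : ∀ i j : X, ∃ b : A, i ≠ j → b ^ 2 = θ i - θ j ∧ τ b = b := by
    intro i j
    by_cases h : i = j
    · exact ⟨0, fun h' => absurd h h'⟩
    · obtain ⟨b, h1⟩ := hb i j h
      exact ⟨b, fun _ => h1⟩
  choose β hβ using hb'
  obtain ⟨b, hb2, hbτ⟩ := hbc
  have hb0 : b ≠ 0 := by
    rintro rfl
    apply hc
    rw [← hb2]; simp
  rcases hgz with hgz | hgz
  · -- at `W`
    set B : A := (∏ l ∈ Finset.univ.erase r, β r l) * β r i with hB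
    have hBτ : τ B = B := by
      rw [hB, map_mul, map_prod, (hβ r i hir.symm).2]
      congr 1
      exact Finset.prod_congr rfl fun l hl => (hβ r l (Finset.ne_of_mem_erase hl).symm).2
    have hB2 : B ^ 2 = (∏ l ∈ Finset.univ.erase r, (θ r - θ l)) * (θ r - θ i) := by
      rw [hB, mul_pow, (hβ r i hir.symm).1, ← Finset.prod_pow]
      congr 1
      exact Finset.prod_congr rfl fun l hl => (hβ r l (Finset.ne_of_mem_erase hl).symm).1
    set δ : M := z * ι B / (ι b * y) with hδ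
    have hδM : δ ∈ M2x ι θ x y := div_mem (mul_mem hzM (hιM _)) (mul_mem (hιM _) hyM)
    have hgδ : g δ = -δ := by
      have g1 : g (z * ι B) = z * ι B := by rw [map_mul g, hgz, hgι, hBτ]
      have g2 : g (ι b * y) = -(ι b * y) := by rw [map_mul g, hgι, hgy, hbτ, map_neg, neg_mul]
      rw [hδ, map_div₀ g, g1, g2, div_neg]
    have hP0 : (∏ l ∈ Finset.univ.erase r, (x - ι (θ l))) ≠ 0 :=
      Finset.prod_ne_zero_iff.2 fun l _ => hne l
    have hδ2 : δ ^ 2 = (∏ l ∈ Finset.univ.erase r, (ι (θ r - θ l) / (x - ι (θ l)))) *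
        (ι (θ r - θ i) / (x - ι (θ i))) := by
      have h1 : (ι b * y) ^ 2 = (x - ι (θ r)) * ∏ l ∈ Finset.univ.erase r, (x - ι (θ l)) := by
        rw [mul_pow, ← map_pow, hb2, hxy,
          Finset.mul_prod_erase Finset.univ (fun l => x - ι (θ l)) (Finset.mem_univ r)]
      have h2 : ι B ^ 2 = (∏ l ∈ Finset.univ.erase r, ι (θ r - θ l)) * ι (θ r - θ i) := by
        rw [← map_pow, hB2, map_mul, map_prod]
      rw [hδ, div_pow, mul_pow, h1, h2, hz, Finset.prod_div_distrib]
      have h3 := hne r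
      have h4 := hne i
      field_simp
    refine no_neg hW hgW hδM ?_ hgδ
    rw [hδ2]
    refine mul_one (prod_one _ _ fun l hl => ?_) ?_
    · exact ratio_one hW hθ (Finset.ne_of_mem_erase hl) hWr (hne l)
    · exact ratio_one hW hθ hir hWr (hne i)
  · -- at `W'`
    have h1 := hβ r' i hir'.symm
    have h2 := hβ r' r (fun h => hrr h.symm)
    have h20 : β r' r ≠ 0 := by
      intro h
      have h3 := h2.1
      rw [h] at h3
      have h4 : θ r' = θ r := by
        have : θ r' - θ r = 0 := by rw [← h3]; simp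
        exact sub_eq_zero.1 this
      exact hrr (hθ h4).symm
    set δ : M := z * ι (β r' i / β r' r) with hδ
    have hδM : δ ∈ M2x ι θ x y := mul_mem hzM (hιM _)
    have hgδ : g δ = -δ := by
      rw [hδ, map_mul, hgz, hgι, map_div₀ τ, h1.2, h2.2, neg_mul]
    have hδ2 : δ ^ 2 = ((x - ι (θ r)) / ι (θ r' - θ r)) * (ι (θ r' - θ i) / (x - ι (θ i))) := by
      rw [hδ, mul_pow, ← map_pow, div_pow, h1.1, h2.1, hz, map_div₀]
      ring
    refine no_neg hW' hgW' hδM ?_ hgδ
    rw [hδ2]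
    exact mul_one (ratio_one' hW' hθ hrr hWr') (ratio_one hW' hθ hir' hWr' (hne i))

end Pool.Agent.W335.SHU
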